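import Pool.Agent.Helper18_LPY.Nbh

/-!
# LPY: module BST (blocks exist)
-/

set_option autoImplicit false

namespace Pool.Agent.LPY.H18

open Pool.Agent.LAX

open Classical in
theorem bst : BstStmt := by
  intro V _ σ L hL hcyc
  -- a maximal `L`-separated set
  obtain ⟨F, hF⟩ : ∃ F : Set V, Maximal
      (fun F : Set V => ∀ f ∈ F, ∀ j, 0 < j → j < L → (σ ^ j) f ∉ F) F := by
    have h0 : (fun F : Set V => ∀ f ∈ F, ∀ j, 0 < j → j < L → (σ ^ j) f ∉ F) ∅ :=
      fun f hf => absurd hf (Set.notMem_empty f)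
    obtain ⟨F, _, h2⟩ := (Set.toFinite
      {F : Set V | ∀ f ∈ F, ∀ j, 0 < j → j < L → (σ ^ j) f ∉ F}).exists_le_maximal h0
    exact ⟨F, h2⟩
  have hsep : ∀ f ∈ F, ∀ j, 0 < j → j < L → (σ ^ j) f ∉ F := hF.prop
  -- every vertex is near `F`
  have hnear : ∀ v, ∃ i : ℤ, -(L : ℤ) < i ∧ i < L ∧ (σ ^ i) v ∈ F := by
    intro v
    by_cases hv : v ∈ F
    · exact ⟨0, by omega, by omega, by simpa using hv⟩
    by_contra hc
    push Not at hc
    apply hv
    refine hF.le_of_ge (y := insert v F) ?_ (Set.subset_insert v F) (Set.mem_insert v F)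
    intro f hf j hj1 hj2 hj3
    rcases hf with rfl | hf
    · rcases hj3 with h | h
      · exact hcyc j f hj1 hj2 h
      · exact hc j (by omega) (by omega) (by simpa using h)
    · rcases hj3 with h | h
      · refine hc (-(j : ℤ)) (by omega) (by omega) ?_
        rw [← h]
        simpa using hf
      · exact hsep f hf j hj1 hj2 h
  have hback : ∀ v, ∃ j : ℕ, j < 2 * L ∧ (σ⁻¹ ^ j) v ∈ F := by
    intro v
    obtain ⟨i, h1, h2, h3⟩ := hnear ((σ ^ (-((L : ℤ) - 1))) v)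
    refine ⟨((L : ℤ) - 1 - i).toNat, by omega, ?_⟩
    rw [← Equiv.Perm.mul_apply, ← zpow_add] at h3
    have h4 : (σ⁻¹ ^ ((L : ℤ) - 1 - i).toNat) v = (σ ^ (i + -((L : ℤ) - 1))) v := by
      rw [← zpow_natCast, Int.toNat_of_nonneg (by omega), inv_zpow', neg_sub]
      congr 2
    rw [h4]
    exact h3
  have hfwd : ∀ v, ∃ j : ℕ, 1 ≤ j ∧ (σ ^ j) v ∈ F := by
    intro v
    obtain ⟨i, h1, h2, h3⟩ := hnear ((σ ^ (L : ℤ)) v)
    refine ⟨((L : ℤ) + i).toNat, by omega, ?_⟩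
    rw [← Equiv.Perm.mul_apply, ← zpow_add] at h3
    have h4 : (σ ^ ((L : ℤ) + i).toNat) v = (σ ^ (i + (L : ℤ))) v := by
      rw [← zpow_natCast, Int.toNat_of_nonneg (by omega)]
      congr 2
      ring
    rw [h4]
    exact h3
  have hback' : ∀ v, ∃ j : ℕ, (σ⁻¹ ^ j) v ∈ F := fun v => by
    obtain ⟨j, _, h⟩ := hback v
    exact ⟨j, h⟩
  -- definitions
  obtain ⟨bk, hbk⟩ : ∃ bk : V → ℕ, ∀ v, bk v = Nat.find (hback' v) := ⟨_, fun _ => rfl⟩
  obtain ⟨nj, hnj⟩ : ∃ nj : V → ℕ, ∀ v, nj v = Nat.find (hfwd v) := ⟨_, fun _ => rfl⟩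
  have bk1 : ∀ v, (σ⁻¹ ^ bk v) v ∈ F := fun v => by
    rw [hbk]
    exact Nat.find_spec (hback' v)
  have bk2 : ∀ v j, j < bk v → (σ⁻¹ ^ j) v ∉ F := fun v j hj => by
    rw [hbk] at hj
    exact Nat.find_min (hback' v) hj
  have bk3 : ∀ v, bk v < 2 * L := fun v => by
    obtain ⟨j, h1, h2⟩ := hback v
    rw [hbk]
    exact (Nat.find_min' (hback' v) h2).trans_lt h1
  have nj1 : ∀ v, 1 ≤ nj v ∧ (σ ^ nj v) v ∈ F := fun v => by
    rw [hnj]
    exact Nat.find_spec (hfwd v)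
  have nj2 : ∀ v j, 1 ≤ j → j < nj v → (σ ^ j) v ∉ F := fun v j hj1 hj hj2 => by
    rw [hnj] at hj
    exact Nat.find_min (hfwd v) hj ⟨hj1, hj2⟩
  have bk0 : ∀ v ∈ F, bk v = 0 := by
    intro v hv
    by_contra h
    exact bk2 v 0 (Nat.pos_of_ne_zero h) (by simpa using hv)
  -- the step
  have hs1 : ∀ v, σ v ∉ F → bk (σ v) = bk v + 1 := by
    intro v hv
    have e : ∀ j : ℕ, (σ⁻¹ ^ (j + 1)) (σ v) = (σ⁻¹ ^ j) v := by
      intro j
      rw [pow_succ, Equiv.Perm.mul_apply, iv1]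
    apply le_antisymm
    · by_contra hc
      exact bk2 (σ v) (bk v + 1) (by omega) (by rw [e]; exact bk1 v)
    · have h0 : bk (σ v) ≠ 0 := by
        intro h
        have := bk1 (σ v)
        rw [h] at this
        exact hv (by simpa using this)
      by_contra hc
      obtain ⟨m, hm⟩ := Nat.exists_eq_succ_of_ne_zero h0
      have h1 := bk1 (σ v)
      rw [hm, Nat.succ_eq_add_one, e] at h1
      exact bk2 v m (by omega) h1
  have hs2 : ∀ v, σ v ∉ F → (σ ^ nj (σ v)) (σ v) = (σ ^ nj v) v := by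
    intro v hv
    have e : ∀ j : ℕ, (σ ^ j) (σ v) = (σ ^ (j + 1)) v := by
      intro j
      rw [pow_succ, Equiv.Perm.mul_apply]
    have h1 : nj v = nj (σ v) + 1 := by
      apply le_antisymm
      · by_contra hc
        exact nj2 v (nj (σ v) + 1) (by omega) (by omega) (by rw [← e]; exact (nj1 (σ v)).2)
      · have h0 : nj v ≠ 1 := by
          intro h
          have := (nj1 v).2
          rw [h] at this
          exact hv (by simpa using this)
        have h00 := (nj1 v).1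
        by_contra hc
        refine nj2 (σ v) (nj v - 1) (by omega) (by omega) ?_
        rw [e, show nj v - 1 + 1 = nj v by omega]
        exact (nj1 v).2
    rw [e, h1]
  have hs3 : ∀ v, σ v ∉ F → (σ⁻¹ ^ bk (σ v)) (σ v) = (σ⁻¹ ^ bk v) v := by
    intro v hv
    rw [hs1 v hv, pow_succ, Equiv.Perm.mul_apply, iv1]
  have hnst : ∀ v (i : ℕ), i ≤ bk v →
      (σ ^ nj ((σ⁻¹ ^ i) v)) ((σ⁻¹ ^ i) v) = (σ ^ nj v) v := by
    intro v i
    induction i with
    | zero => intro _; simp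
    | succ i ih =>
      intro hi
      have h1 : σ ((σ⁻¹ ^ (i + 1)) v) = (σ⁻¹ ^ i) v := by
        rw [pow_succ', Equiv.Perm.mul_apply, iv2]
      have h2 := hs2 ((σ⁻¹ ^ (i + 1)) v) (by rw [h1]; exact bk2 v i (by omega))
      rw [h1] at h2
      rw [← h2]
      exact ih (by omega)
  refine ⟨⟨bk, fun v => (σ⁻¹ ^ bk v) v, fun v => (σ ^ nj v) v, bk3, ?_, ?_, ?_, ?_, ?_, ?_⟩⟩
  · intro v
    show (σ ^ bk v) ((σ⁻¹ ^ bk v) v) = v
    rw [← Equiv.Perm.mul_apply, inv_pow, mul_inv_cancel, Equiv.Perm.one_apply]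
  · intro v
    exact bk0 _ (bk1 v)
  · intro v
    show (σ⁻¹ ^ bk ((σ⁻¹ ^ bk v) v)) ((σ⁻¹ ^ bk v) v) = (σ⁻¹ ^ bk v) v
    rw [bk0 _ (bk1 v)]
    simp
  · intro v
    exact hnst v (bk v) le_rfl
  · intro v
    show (σ⁻¹ ^ bk ((σ ^ nj v) v)) ((σ ^ nj v) v) = (σ ^ nj v) v
    rw [bk0 _ (nj1 v).2]
    simp
  · intro v
    by_cases hv : σ v ∈ F
    · right
      constructor
      · show σ v = (σ ^ nj v) v
        have h1 : nj v = 1 := by
          apply le_antisymm _ (nj1 v).1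
          by_contra hc
          exact nj2 v 1 le_rfl (by omega) (by simpa using hv)
        rw [h1, pow_one]
      · by_contra hc
        refine hsep _ (bk1 v) (bk v + 1) (by omega) (by omega) ?_
        rw [pow_succ', Equiv.Perm.mul_apply, ← Equiv.Perm.mul_apply, inv_pow]
        rw [Equiv.Perm.mul_apply, ← Equiv.Perm.mul_apply (σ ^ bk v), mul_inv_cancel,
          Equiv.Perm.one_apply]
        exact hv
    · left
      exact ⟨hs1 v hv, hs3 v hv, hs2 v hv⟩

end Pool.Agent.LPY.H18
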