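import Pool.Agent.Helper48_LPY.Stmts

/-!
# LPY: module NBH (sizes of the neighbourhoods `nb`)
-/

set_option autoImplicit false

namespace Pool.Agent.LPY.H18

open Pool.Agent.LAX

variable {V : Type}

theorem iv1 (σ : Equiv.Perm V) (v : V) : σ⁻¹ (σ v) = v := by simp

theorem iv2 (σ : Equiv.Perm V) (v : V) : σ (σ⁻¹ v) = v := by simp

open Classical in
/-- a block has at most `2 L` vertices -/
theorem blk_ncard {σ : Equiv.Perm V} {L : ℕ} (B : BS σ L) (f : V) :
    {v' | B.st v' = f}.Finite ∧ {v' | B.st v' = f}.ncard ≤ 2 * L := by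
  have hsub : {v' | B.st v' = f} ⊆
      ((Finset.range (2 * L)).image (fun j => (σ ^ j) f) : Finset V) := by
    intro v' hv'
    have h := B.pos v'
    rw [show B.st v' = f from hv'] at h
    rw [Finset.coe_image]
    exact ⟨B.bk v', Finset.mem_coe.2 (Finset.mem_range.2 (B.lt v')), h⟩
  refine ⟨(Finset.finite_toSet _).subset hsub, ?_⟩
  calc _ ≤ (((Finset.range (2 * L)).image (fun j => (σ ^ j) f) : Finset V) : Set V).ncard :=
        Set.ncard_le_ncard hsub (Finset.finite_toSet _)
    _ ≤ 2 * L := by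
        rw [Set.ncard_coe_finset]
        exact Finset.card_image_le.trans (by rw [Finset.card_range])

theorem reach {σ : Equiv.Perm V} {L : ℕ} (B : BS σ L) :
    ∀ (n : ℕ) (v : V), 2 * L ≤ B.bk v + n → B.st v = B.st (σ⁻¹ (B.nx v)) := by
  intro n
  induction n with
  | zero =>
    intro v h
    have := B.lt v
    omega
  | succ n ih =>
    intro v h
    rcases B.step v with ⟨h1, h2, h3⟩ | ⟨h1, h2⟩
    · have := ih (σ v) (by omega)
      rw [h2, h3] at this
      exact this
    · rw [← h1, iv1]

theorem nbh : NbhStmt := by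
  intro V _ σ L B hL v
  have hsym : {v' | v ∈ nb B v'} = nb B v := by
    ext v'
    simp only [nb, Set.mem_ofPred_eq]
    constructor
    · rintro (h | h | h)
      · exact Or.inl h.symm
      · exact Or.inr (Or.inr h.symm)
      · exact Or.inr (Or.inl h.symm)
    · rintro (h | h | h)
      · exact Or.inl h.symm
      · exact Or.inr (Or.inr h.symm)
      · exact Or.inr (Or.inl h.symm)
  rw [hsym]
  have h1 : nb B v ⊆ {v' | B.st v' = B.st v} ∪ {v' | B.st v' = B.nx v} ∪
      {v' | B.st v' = B.st (σ⁻¹ (B.st v))} := by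
    intro v' hv'
    rcases hv' with h | h | h
    · exact Or.inl (Or.inl h)
    · exact Or.inl (Or.inr h)
    · right
      have := reach B (2 * L) v' (by omega)
      rw [h] at this
      exact this
  have h2 : (nb B v).ncard ≤ 6 * L := by
    calc (nb B v).ncard ≤ ({v' | B.st v' = B.st v} ∪ {v' | B.st v' = B.nx v} ∪
          {v' | B.st v' = B.st (σ⁻¹ (B.st v))}).ncard := Set.ncard_le_ncard h1 (Set.toFinite _)
      _ ≤ ({v' | B.st v' = B.st v} ∪ {v' | B.st v' = B.nx v}).ncard +
          {v' | B.st v' = B.st (σ⁻¹ (B.st v))}.ncard := Set.ncard_union_le _ _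
      _ ≤ ({v' | B.st v' = B.st v}.ncard + {v' | B.st v' = B.nx v}.ncard) +
          {v' | B.st v' = B.st (σ⁻¹ (B.st v))}.ncard :=
          Nat.add_le_add_right (Set.ncard_union_le _ _) _
      _ ≤ (2 * L + 2 * L) + 2 * L := by
          gcongr
          · exact (blk_ncard B _).2
          · exact (blk_ncard B _).2
          · exact (blk_ncard B _).2
      _ = 6 * L := by ring
  exact ⟨h2, h2⟩

end Pool.Agent.LPY.H18
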